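import Pool.Agent.W_9a760e_h67.Main

open Matrix Pool.Agent.W_9a760e_h67

/-- Let `K` be a finite field with `q` elements, where `q` is a square or a cube, or
`q = 0, 1, -1 mod 5`, or `q = 0, 1, -1 mod 7`, or `q = 1, -1 mod 16`. A group `G` with a section
isomorphic to `PSL(2, K)` (a subgroup `H` mapping onto `PSL(2, K)`) satisfies none of the
identities `u_n = 1`. Here `word x y n` is `u_(n+1)`: `u_1 = [x, y] = x⁻¹ y⁻¹ x y` and
`u_(n+1) = [[u_n, x], [u_n, y]]`. -/
theorem Pool.Agent.Results.MP_9a760e_al.PSLTwoClasses.result {G : Type*} [Group G]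
    {K : Type*} [Field K] [Fintype K]
    (hq : (∃ r : ℕ, Fintype.card K = r ^ 2) ∨ (∃ r : ℕ, Fintype.card K = r ^ 3) ∨
      (Fintype.card K % 5 = 0 ∨ Fintype.card K % 5 = 1 ∨ Fintype.card K % 5 = 4) ∨
      (Fintype.card K % 7 = 0 ∨ Fintype.card K % 7 = 1 ∨ Fintype.card K % 7 = 6) ∨
      (Fintype.card K % 16 = 1 ∨ Fintype.card K % 16 = 15))
    (H : Subgroup G) (φ : H →* ProjectiveSpecialLinearGroup (Fin 2) K)
    (hφ : Function.Surjective φ) : ¬ ∃ n : ℕ, ∀ x y : G, word x y n = 1 := by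
  rintro ⟨n, hn⟩
  have hG : Good (Fintype.card K) := by
    rcases hq with ⟨r, h⟩ | ⟨r, h⟩ | h
    · rw [h]; exact (good_pow r).1
    · rw [h]; exact (good_pow r).2
    · exact h
  obtain ⟨a, b, h⟩ := main_section hG H φ hφ n
  exact h (hn a b)
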